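import Pool.Agent.Q137.SN.Appl

/-!
# Power saving for progression-free sets of small spectral norm

The spectral norm of `A ⊆ F_p^n` is `∑_ψ |E_x 1_A(x) ψ(x)|`, the sum over all characters. A set of spectral
norm `M` has density greater than `1 - 1/k` on a translate of the annihilator of at most
`(2kM + 1) log (p^n/|A|)` characters (`Pool.Agent.Q137.SN`), so it contains progressions of length `k` if
this number is less than `n`.
-/

set_option autoImplicit false

namespace Pool.Agent.Results.MP_94d023_co.SmallSpectralNorm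

open Pool.Agent.Q137.SN

/-- (1) A set `A ⊆ F_p^n`, not empty, without progressions `x, x + d, …, x + (k-1) d`, `d ≠ 0`, satisfies
`n ≤ (2 k M + 1) log (p^n/|A|) + 1`, where `M` is its spectral norm. (2) So for `p = 5`, `k = 4` there is
a power saving for the sets of bounded spectral norm: `|A| ≤ 2 (5^n)^(1-c)` with `c = 1/(2 (8 M + 1))`. -/
theorem result :
    (∀ (p n k : ℕ) [Fact p.Prime], 2 ≤ k → ∀ A : Finset (Fin n → ZMod p), A.Nonempty →
      (∀ x d : Fin n → ZMod p, (∀ i : Fin k, x + (i : ℕ) • d ∈ A) → d = 0) →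
      (n : ℝ) ≤ (2 * k * specNorm A + 1) * Real.log ((p : ℝ) ^ n / A.card) + 1) ∧
    ∀ (M : ℝ) (n : ℕ) (A : Finset (Fin n → ZMod 5)), 1 ≤ M → specNorm A ≤ M →
      (∀ x d : Fin n → ZMod 5, x ∈ A → x + d ∈ A → x + 2 • d ∈ A → x + 3 • d ∈ A → d = 0) →
      (A.card : ℝ) ≤ 2 * ((5 : ℝ) ^ n) ^ (1 - 1 / (2 * (8 * M + 1))) := by
  refine ⟨fun p n k _ hk A hA hfree => progressions hk A hA hfree, ?_⟩
  intro M n A hM hs hfree
  rcases A.eq_empty_or_nonempty with rfl | hA
  · simp only [Finset.card_empty, Nat.cast_zero]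
    positivity
  have : Fact (Nat.Prime 5) := ⟨by norm_num⟩
  have h1 := progressions (p := 5) (n := n) (k := 4) (by norm_num) A hA (by
    intro x d h
    refine hfree x d ?_ ?_ ?_ ?_
    · simpa using h 0
    · simpa using h 1
    · simpa using h 2
    · simpa using h 3)
  have hc : (0 : ℝ) < A.card := by exact_mod_cast hA.card_pos
  have hN : (0 : ℝ) < (5 : ℝ) ^ n := by positivity
  have hle : (A.card : ℝ) ≤ (5 : ℝ) ^ n := by
    have := Finset.card_le_univ A
    rw [Fintype.card_fun, ZMod.card, Fintype.card_fin] at this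
    exact_mod_cast this
  have hlog : 0 ≤ Real.log ((5 : ℝ) ^ n / A.card) :=
    Real.log_nonneg (by rw [le_div_iff₀ hc]; linarith)
  have h2 : (n : ℝ) - 1 ≤ (8 * M + 1) * Real.log ((5 : ℝ) ^ n / A.card) := by
    have h3 : (2 * ((4 : ℕ) : ℝ) * specNorm A + 1) ≤ 8 * M + 1 := by push_cast; linarith
    have h4 := mul_le_mul_of_nonneg_right h3 hlog
    push_cast at h1 h4
    linarith
  have hK : (0 : ℝ) < 8 * M + 1 := by linarith
  -- `log |A| ≤ log 2 + (1 - c) n log 5`
  have h5 : Real.log A.card ≤ Real.log 2 + (1 - 1 / (2 * (8 * M + 1))) * Real.log ((5 : ℝ) ^ n) := by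
    rw [Real.log_div hN.ne' hc.ne'] at h2
    rw [Real.log_pow] at h2 ⊢
    have hl5 : Real.log 5 ≤ 2 := by
      have h6 : Real.log 5 = Real.log (5 / 4) + 2 * Real.log 2 := by
        rw [show (5 : ℝ) = 5 / 4 * 2 ^ 2 by norm_num, Real.log_mul (by norm_num) (by norm_num),
          Real.log_pow]
        norm_num
      have h7 : Real.log (5 / 4) ≤ 1 / 4 := by
        have := Real.log_le_sub_one_of_pos (show (0 : ℝ) < 5 / 4 by norm_num)
        linarith
      have h8 := Real.log_two_lt_d9
      linarith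
    have hl2 : (0.69 : ℝ) < Real.log 2 := by
      have := Real.log_two_gt_d9
      linarith
    have h9 : ((n : ℝ) - 1) / (8 * M + 1) ≤ n * Real.log 5 - Real.log A.card := by
      rw [div_le_iff₀ hK]
      linarith
    have hn0 : (0 : ℝ) ≤ n := Nat.cast_nonneg n
    have h10 : (1 : ℝ) / (2 * (8 * M + 1)) * (n * Real.log 5) ≤ n / (8 * M + 1) := by
      have : (1 : ℝ) / (2 * (8 * M + 1)) * (n * Real.log 5) = (n / (8 * M + 1)) * (Real.log 5 / 2) := by
        field_simp
      rw [this]
      have h11 : Real.log 5 / 2 ≤ 1 := by linarith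
      have h12 : 0 ≤ (n : ℝ) / (8 * M + 1) := by positivity
      nlinarith
    have h13 : (1 : ℝ) / (8 * M + 1) ≤ 0.69 := by
      rw [div_le_iff₀ hK]
      linarith
    have h14 : ((n : ℝ) - 1) / (8 * M + 1) = n / (8 * M + 1) - 1 / (8 * M + 1) := by ring
    have h15 : (1 - 1 / (2 * (8 * M + 1))) * (n * Real.log 5) =
        n * Real.log 5 - 1 / (2 * (8 * M + 1)) * (n * Real.log 5) := by ring
    rw [h15]
    linarith
  have h6 : Real.log A.card ≤ Real.log (2 * ((5 : ℝ) ^ n) ^ (1 - 1 / (2 * (8 * M + 1)))) := by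
    rw [Real.log_mul (by norm_num) (by positivity), Real.log_rpow hN]
    exact h5
  exact (Real.log_le_log_iff hc (by positivity)).1 h6

end Pool.Agent.Results.MP_94d023_co.SmallSpectralNorm
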